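import Mathlib

/-!
# Positivity of the mirror deformed Markov numbers (MP_99184a_co)

Every vertex `(a, b, c)` of the mirror Markov tree has three companion polynomials `w1, w2, w3` of
degrees `deg a + 1`, `deg b + 1`, `deg c + 1` (deformations of `3a, 3b, 3c`), such that the left
mutation is `d = w1 c - q^{deg a + 1} b`, the right mutation is `d = w2 c - q^{deg b + 1} a`, and the
companions obey similar rules, e.g. `w3' = w1~ w3 - q^{deg a + 1} w2~` (`~` is the mirror image).
All coefficients stay positive because `c` dominates `a` and `b`, and `w3` dominates `w2~` and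
`q^{..} w1`, coefficientwise.
-/

namespace Pool.Agent.Results.MP_99184a_co.Positivity

open Polynomial LaurentPolynomial

/-- The symmetrization `X(q) = x(q) x(q⁻¹)` of a polynomial `x(q)`. -/
noncomputable def symm (x : ℤ[X]) : ℤ[T;T⁻¹] :=
  toLaurent x * LaurentPolynomial.invert (toLaurent x)

/-- `IsMutation s x y c d` says `d(q) = q^{deg c} (q^s X(q) + C(q)) / ỹ(q)`, where
`ỹ(q) = q^{deg y} y(q⁻¹)` is the mirror image of `y` (the polynomial with the coefficients of `y`
reversed, `Polynomial.reverse`). -/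
def IsMutation (s : ℤ) (x y c d : ℤ[X]) : Prop :=
  toLaurent d * toLaurent y.reverse = T (c.natDegree : ℤ) * (T s * symm x + symm c)

/-- A triple of polynomials. -/
@[ext] structure Triple where
  a : ℤ[X]
  b : ℤ[X]
  c : ℤ[X]

/-- The vertices of the mirror Markov tree: the two top vertices, and the vertices reached from
`t₀` by a word of left (`true`) and right (`false`) steps, read from `t₀` downwards. -/
inductive Vertex
  | top
  | second
  | node (w : List Bool)

/-- The sign of the edge entering the vertex reached from `t₀` by the word `w`: it is `+1` at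
`t₀`, it is kept by a left step and changed by a right step. -/
def sign (w : List Bool) : ℤ := (-1) ^ (w.count false)

/-- `τ` is the labelling of the vertices by the triples of the mirror Markov tree. -/
structure IsMirrorMarkovTree (τ : Vertex → Triple) : Prop where
  top : τ .top = ⟨1, 1, 1⟩
  second : τ .second = ⟨1, 1, 1 + X⟩
  root : τ (.node []) = ⟨1, 1 + X, 1 + 2 * X + 2 * X ^ 2⟩
  left_a : ∀ w, (τ (.node (w ++ [true]))).a = (τ (.node w)).a
  left_b : ∀ w, (τ (.node (w ++ [true]))).b = (τ (.node w)).c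
  left_c : ∀ w, IsMutation (sign w) (τ (.node w)).a (τ (.node w)).b (τ (.node w)).c
    (τ (.node (w ++ [true]))).c
  right_a : ∀ w, (τ (.node (w ++ [false]))).a = (τ (.node w)).b
  right_b : ∀ w, (τ (.node (w ++ [false]))).b = (τ (.node w)).c
  right_c : ∀ w, IsMutation (-sign w) (τ (.node w)).b (τ (.node w)).a (τ (.node w)).c
    (τ (.node (w ++ [false]))).c

/-! ### Laurent polynomials and reversal -/

lemma invert_toLaurent (x : ℤ[X]) :
    LaurentPolynomial.invert (toLaurent x) = T (-(x.natDegree : ℤ)) * toLaurent x.reverse := by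
  rw [toLaurent_reverse, mul_comm, mul_assoc, ← T_add]
  simp

lemma T_symm (x : ℤ[X]) :
    T (x.natDegree : ℤ) * symm x = toLaurent (x * x.reverse) := by
  rw [symm, invert_toLaurent, map_mul]
  calc T (x.natDegree : ℤ) * (toLaurent x * (T (-(x.natDegree : ℤ)) * toLaurent x.reverse))
      = (T (x.natDegree : ℤ) * T (-(x.natDegree : ℤ))) * (toLaurent x * toLaurent x.reverse) := by
        ring
    _ = _ := by rw [← T_add]; simp

/-- The polynomial form of a mutation. -/
lemma isMutation_iff {s : ℤ} {x y c d : ℤ[X]} {e : ℕ}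
    (he : (e : ℤ) + x.natDegree = c.natDegree + s) :
    IsMutation s x y c d ↔ d * y.reverse = X ^ e * (x * x.reverse) + c * c.reverse := by
  rw [← (Polynomial.toLaurent_injective (R := ℤ)).eq_iff]
  have h2 : toLaurent (X ^ e * (x * x.reverse) : ℤ[X])
      = T (e : ℤ) * (T (x.natDegree : ℤ) * symm x) := by
    rw [T_symm, map_mul toLaurent (X ^ e), Polynomial.toLaurent_X_pow]
  have h1 : T (c.natDegree : ℤ) * (T s * symm x + symm c)
      = toLaurent (X ^ e * (x * x.reverse) + c * c.reverse) := by
    rw [map_add, h2, mul_add, T_symm c, ← mul_assoc, ← T_add, ← mul_assoc, ← T_add, he]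
  rw [IsMutation, h1, map_mul]

/-- Positive constant and positive leading coefficient. -/
def Pos (x : ℤ[X]) : Prop := 0 < x.coeff 0 ∧ 0 < x.leadingCoeff

/-- The product of the constant and the leading coefficient. -/
def m (x : ℤ[X]) : ℤ := x.coeff 0 * x.leadingCoeff

lemma Pos.m_pos {x : ℤ[X]} (h : Pos x) : 0 < m x := mul_pos h.1 h.2

lemma Pos.ne_zero {x : ℤ[X]} (h : Pos x) : x ≠ 0 := by
  rintro rfl
  simpa using h.1

lemma Pos.natTrailingDegree {x : ℤ[X]} (h : Pos x) : x.natTrailingDegree = 0 := by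
  rw [natTrailingDegree_eq_zero]
  exact Or.inr h.1.ne'

lemma Pos.natDegree_reverse {x : ℤ[X]} (h : Pos x) : x.reverse.natDegree = x.natDegree := by
  rw [reverse_natDegree, h.natTrailingDegree, Nat.sub_zero]

lemma Pos.leadingCoeff_reverse {x : ℤ[X]} (h : Pos x) : x.reverse.leadingCoeff = x.coeff 0 := by
  rw [reverse_leadingCoeff, trailingCoeff, h.natTrailingDegree]

lemma Pos.reverse_ne_zero {x : ℤ[X]} (h : Pos x) : x.reverse ≠ 0 := by
  intro h0
  exact h.ne_zero (reverse_eq_zero.mp h0)

/-- The coefficients of `x * x.reverse` at the two ends. -/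
lemma Pos.natDegree_mul_reverse {x : ℤ[X]} (h : Pos x) :
    (x * x.reverse).natDegree = 2 * x.natDegree := by
  rw [natDegree_mul h.ne_zero h.reverse_ne_zero, h.natDegree_reverse]; ring

lemma Pos.coeff_mul_reverse {x : ℤ[X]} (h : Pos x) :
    (x * x.reverse).coeff (2 * x.natDegree) = m x := by
  rw [← h.natDegree_mul_reverse, coeff_natDegree, leadingCoeff_mul, h.leadingCoeff_reverse, m]
  ring

/-- What a mutation does to degrees, constant and leading coefficients. -/
lemma mutation_facts {s : ℤ} {x y c d : ℤ[X]} (hs : s = 1 ∨ s = -1) (hx : Pos x) (hy : Pos y)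
    (hc : Pos c) (hdeg : x.natDegree + 1 ≤ c.natDegree) (h : IsMutation s x y c d) :
    Pos d ∧ d.natDegree + y.natDegree = 2 * c.natDegree ∧
      m d * m y = if x.natDegree + 1 = c.natDegree then m c * (m c + m x) else m c ^ 2 := by
  obtain ⟨e, he⟩ : ∃ e : ℕ, (e : ℤ) + x.natDegree = c.natDegree + s := by
    refine ⟨(c.natDegree + s - x.natDegree).toNat, ?_⟩
    rcases hs with rfl | rfl <;> omega
  rw [isMutation_iff he] at h
  set N : ℤ[X] := X ^ e * (x * x.reverse) + c * c.reverse with hN
  -- the constant coefficient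
  have h0 : d.coeff 0 * y.leadingCoeff = m c + if e = 0 then m x else 0 := by
    have := congrArg (fun p => coeff p 0) h
    simp only [mul_coeff_zero, coeff_zero_reverse, hN, coeff_add, coeff_X_pow] at this
    rw [this, m, m]
    by_cases he0 : e = 0
    · simp [he0]; ring
    · have : ¬ (0 = e) := fun h => he0 h.symm
      simp [he0, this]
  have hxe : (X ^ e * (x * x.reverse)).natDegree = e + 2 * x.natDegree := by
    rw [natDegree_X_pow_mul _ (mul_ne_zero hx.ne_zero hx.reverse_ne_zero),
      hx.natDegree_mul_reverse]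
    ring
  have hxle : e + 2 * x.natDegree ≤ 2 * c.natDegree := by
    rcases hs with rfl | rfl <;> omega
  -- the leading coefficient
  have hNc : N.coeff (2 * c.natDegree)
      = m c + if e + 2 * x.natDegree = 2 * c.natDegree then m x else 0 := by
    rw [hN, coeff_add, hc.coeff_mul_reverse, add_comm]
    congr 1
    by_cases h1 : e + 2 * x.natDegree = 2 * c.natDegree
    · rw [if_pos h1, ← h1, add_comm, coeff_X_pow_mul, hx.coeff_mul_reverse]
    · rw [if_neg h1]
      apply coeff_eq_zero_of_natDegree_lt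
      rw [hxe]; omega
  have hNpos : 0 < N.coeff (2 * c.natDegree) := by
    rw [hNc]
    have := hc.m_pos
    have := hx.m_pos
    split_ifs <;> omega
  have hNle : N.natDegree ≤ 2 * c.natDegree := by
    refine (natDegree_add_le _ _).trans (max_le ?_ ?_)
    · rw [hxe]; exact hxle
    · rw [hc.natDegree_mul_reverse]
  have hNdeg : N.natDegree = 2 * c.natDegree :=
    le_antisymm hNle (le_natDegree_of_ne_zero hNpos.ne')
  have hNlead : N.leadingCoeff = N.coeff (2 * c.natDegree) := by
    rw [leadingCoeff, hNdeg]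
  have hN0 : N ≠ 0 := by
    intro h0
    rw [h0] at hNpos
    simp at hNpos
  have hd0 : d ≠ 0 := by
    rintro rfl
    rw [zero_mul] at h
    exact hN0 h.symm
  have hdd : d.natDegree + y.natDegree = 2 * c.natDegree := by
    rw [← hNdeg, ← h, natDegree_mul hd0 hy.reverse_ne_zero, hy.natDegree_reverse]
  have hlead : d.leadingCoeff * y.coeff 0
      = m c + if e + 2 * x.natDegree = 2 * c.natDegree then m x else 0 := by
    rw [← hNc, ← hNlead, ← h, leadingCoeff_mul, hy.leadingCoeff_reverse]
  have hmc := hc.m_pos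
  have hmx := hx.m_pos
  have hpd : Pos d := by
    constructor
    · by_contra hneg
      have : d.coeff 0 * y.leadingCoeff ≤ 0 :=
        mul_nonpos_of_nonpos_of_nonneg (not_lt.mp hneg) hy.2.le
      rw [h0] at this
      split_ifs at this <;> omega
    · by_contra hneg
      have : d.leadingCoeff * y.coeff 0 ≤ 0 :=
        mul_nonpos_of_nonpos_of_nonneg (not_lt.mp hneg) hy.1.le
      rw [hlead] at this
      split_ifs at this <;> omega
  refine ⟨hpd, hdd, ?_⟩
  have hprod : m d * m y = (d.coeff 0 * y.leadingCoeff) * (d.leadingCoeff * y.coeff 0) := by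
    simp only [m]; ring
  rw [hprod, h0, hlead]
  rcases hs with rfl | rfl
  · have h1 : e ≠ 0 := by omega
    rw [if_neg h1, add_zero]
    by_cases h2 : x.natDegree + 1 = c.natDegree
    · rw [if_pos h2, if_pos (by omega)]
    · rw [if_neg h2, if_neg (by omega)]; ring
  · have h1 : ¬ (e + 2 * x.natDegree = 2 * c.natDegree) := by omega
    rw [if_neg h1, add_zero]
    by_cases h2 : x.natDegree + 1 = c.natDegree
    · rw [if_pos h2, if_pos (by omega)]; ring
    · rw [if_neg h2, if_neg (by omega)]; ring

/-! ### Exactness of the divisions -/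

/-- `x(q⁻¹)`. -/
noncomputable def bar (x : ℤ[X]) : ℤ[T;T⁻¹] := LaurentPolynomial.invert (toLaurent x)

lemma bar_dvd_symm (x : ℤ[X]) : bar x ∣ symm x := Dvd.intro_left _ rfl

lemma invert_symm (x : ℤ[X]) : LaurentPolynomial.invert (symm x) = symm x := by
  rw [symm, map_mul, LaurentPolynomial.involutive_invert, mul_comm]

lemma invert_bar (x : ℤ[X]) : LaurentPolynomial.invert (bar x) = toLaurent x := by
  rw [bar, LaurentPolynomial.involutive_invert]

lemma symm_eq (x : ℤ[X]) : symm x = toLaurent x * bar x := rfl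

lemma T_mul_T_neg (n : ℤ) : (T n * T (-n) : ℤ[T;T⁻¹]) = 1 := by
  rw [← T_add]; simp

lemma T_neg_mul_T (n : ℤ) : (T (-n) * T n : ℤ[T;T⁻¹]) = 1 := by
  rw [← T_add]; simp

/-- A mutation in terms of `y(q⁻¹)`. -/
lemma isMutation_iff_bar {s : ℤ} {x y c d : ℤ[X]} :
    IsMutation s x y c d ↔ toLaurent d * bar y =
      T ((c.natDegree : ℤ) - y.natDegree) * (T s * symm x + symm c) := by
  rw [IsMutation, toLaurent_reverse, ← bar, sub_eq_add_neg, T_add]
  constructor
  · intro h
    calc toLaurent d * bar y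
        = (toLaurent d * (bar y * T (y.natDegree : ℤ))) * T (-(y.natDegree : ℤ)) := by
          rw [mul_assoc (toLaurent d), mul_assoc (bar y), T_mul_T_neg, mul_one]
      _ = _ := by rw [h]; ring
  · intro h
    calc toLaurent d * (bar y * T (y.natDegree : ℤ))
        = (toLaurent d * bar y) * T (y.natDegree : ℤ) := by ring
      _ = (T (-(y.natDegree : ℤ)) * T (y.natDegree : ℤ)) *
            (T (c.natDegree : ℤ) * (T s * symm x + symm c)) := by rw [h]; ring
      _ = _ := by rw [T_neg_mul_T, one_mul]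

/-- The invariants that make the divisions exact. -/
structure Exact (s : ℤ) (x y c : ℤ[X]) : Prop where
  cxy : IsCoprime (symm x) (symm y)
  cxc : IsCoprime (symm x) (symm c)
  cyc : IsCoprime (symm y) (symm c)
  j1 : bar x ∣ T (-s) * symm y + symm c
  j2 : bar y ∣ T s * symm x + symm c
  j3 : bar c ∣ T (-s) * symm x + symm y

lemma Exact.swap {s : ℤ} {x y c : ℤ[X]} (h : Exact s x y c) : Exact (-s) y x c where
  cxy := h.cxy.symm
  cxc := h.cyc
  cyc := h.cxc
  j1 := by simpa using h.j2
  j2 := h.j1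
  j3 := by
    have h3 := h.j3.mul_left (T s)
    have : T s * (T (-s) * symm x + symm y) = T (- -s) * symm y + symm x := by
      rw [mul_add, ← mul_assoc, T_mul_T_neg, neg_neg]; ring
    rwa [this] at h3

lemma Exact.step {s : ℤ} {x y c d : ℤ[X]} (h : Exact s x y c) (hd : IsMutation s x y c d) :
    Exact s x c d := by
  rw [isMutation_iff_bar] at hd
  set k : ℤ := (c.natDegree : ℤ) - y.natDegree with hk
  -- the inverted relation
  have hd' : bar d * toLaurent y = T (-k) * (T (-s) * symm x + symm c) := by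
    have := congrArg LaurentPolynomial.invert hd
    rw [map_mul, map_mul, map_add, map_mul, invert_symm, invert_symm, invert_bar,
      LaurentPolynomial.invert_T, LaurentPolynomial.invert_T] at this
    exact this
  have hprod : symm d * symm y
      = (T s * symm x + symm c) * (T (-s) * symm x + symm c) := by
    calc symm d * symm y = (toLaurent d * bar y) * (bar d * toLaurent y) := by
          rw [symm_eq, symm_eq]; ring
      _ = (T k * T (-k)) * ((T s * symm x + symm c) * (T (-s) * symm x + symm c)) := by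
          rw [hd, hd']; ring
      _ = _ := by rw [T_mul_T_neg, one_mul]
  have hTT := T_mul_T_neg s
  have cbxy : IsCoprime (bar x) (symm y) := h.cxy.of_isCoprime_of_dvd_left (bar_dvd_symm x)
  have cbcy : IsCoprime (bar c) (symm y) := h.cyc.symm.of_isCoprime_of_dvd_left (bar_dvd_symm c)
  refine ⟨h.cxc, ?_, ?_, ?_, ?_, ?_⟩
  · -- symm x, symm d
    have h1 : IsCoprime (symm x) (symm d * symm y) := by
      have h2 : IsCoprime (symm x) (symm c * symm c) := h.cxc.mul_right h.cxc
      have h3 : symm d * symm y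
          = symm c * symm c + symm x * (T s * T (-s) * symm x + (T s + T (-s)) * symm c) := by
        rw [hprod]; ring
      rw [h3]
      exact h2.add_mul_left_right _
    exact h1.of_mul_right_left
  · have h1 : IsCoprime (symm c) (symm d * symm y) := by
      have h2 : IsCoprime (symm c) (symm x * symm x) := h.cxc.symm.mul_right h.cxc.symm
      have h3 : symm d * symm y
          = symm x * symm x + symm c * (symm c + (T s + T (-s)) * symm x) := by
        rw [hprod]
        linear_combination (symm x * symm x) * hTT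
      rw [h3]
      exact h2.add_mul_left_right _
    exact h1.of_mul_right_left
  · -- bar x ∣ T (-s) * symm c + symm d
    have h1 : bar x ∣ (T (-s) * symm c + symm d) * symm y := by
      have h3 : (T (-s) * symm c + symm d) * symm y
          = symm c * (T (-s) * symm y + symm c)
            + symm x * (T s * T (-s) * symm x + (T s + T (-s)) * symm c) := by
        rw [add_mul, hprod]; ring
      rw [h3]
      exact dvd_add (h.j1.mul_left _) ((bar_dvd_symm x).mul_right _)
    exact cbxy.dvd_of_dvd_mul_right h1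
  · -- bar c ∣ T s * symm x + symm d
    have h1 : bar c ∣ (T s * symm x + symm d) * symm y := by
      have h3 : (T s * symm x + symm d) * symm y
          = (T s * symm x) * (T (-s) * symm x + symm y)
            + symm c * (symm c + (T s + T (-s)) * symm x) := by
        rw [add_mul, hprod]; ring
      rw [h3]
      exact dvd_add (h.j3.mul_left _) ((bar_dvd_symm c).mul_right _)
    exact cbcy.dvd_of_dvd_mul_right h1
  · -- bar d ∣ T (-s) * symm x + symm c
    refine Dvd.intro (toLaurent y * T k) ?_
    calc bar d * (toLaurent y * T k) = (bar d * toLaurent y) * T k := by ring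
      _ = (T (-k) * T k) * (T (-s) * symm x + symm c) := by rw [hd']; ring
      _ = _ := by rw [T_neg_mul_T, one_mul]

/-- The division is exact. -/
lemma Exact.exists_mutation {s : ℤ} {x y c : ℤ[X]} (h : Exact s x y c) (hs : s = 1 ∨ s = -1)
    (hy : Pos y) (hdeg : x.natDegree + 1 ≤ c.natDegree) : ∃ d, IsMutation s x y c d := by
  obtain ⟨e, he⟩ : ∃ e : ℕ, (e : ℤ) + x.natDegree = c.natDegree + s := by
    refine ⟨(c.natDegree + s - x.natDegree).toNat, ?_⟩
    rcases hs with rfl | rfl <;> omega
  obtain ⟨D, hD⟩ := h.j2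
  -- `D * T k` is the quotient
  obtain ⟨n, d', hd'⟩ := LaurentPolynomial.exists_T_pow
    (D * T ((c.natDegree : ℤ) - y.natDegree))
  have hN : T (c.natDegree : ℤ) * (T s * symm x + symm c)
      = toLaurent (X ^ e * (x * x.reverse) + c * c.reverse) := by
    have h2 : toLaurent (X ^ e * (x * x.reverse) : ℤ[X])
        = T (e : ℤ) * (T (x.natDegree : ℤ) * symm x) := by
      rw [T_symm, map_mul toLaurent (X ^ e), Polynomial.toLaurent_X_pow]
    rw [map_add, h2, mul_add, T_symm c, ← mul_assoc, ← T_add, ← mul_assoc, ← T_add, he]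
  have hmul : d' * y.reverse = X ^ n * (X ^ e * (x * x.reverse) + c * c.reverse) := by
    apply Polynomial.toLaurent_injective
    rw [map_mul, map_mul, ← hN, hd', Polynomial.toLaurent_X_pow, toLaurent_reverse, ← bar, hD,
      sub_eq_add_neg, T_add]
    calc D * (T (c.natDegree : ℤ) * T (-(y.natDegree : ℤ))) * T (n : ℤ)
          * (bar y * T (y.natDegree : ℤ))
        = (T (-(y.natDegree : ℤ)) * T (y.natDegree : ℤ))
          * (T (n : ℤ) * (T (c.natDegree : ℤ) * (bar y * D))) := by ring
      _ = _ := by rw [T_neg_mul_T, one_mul]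
  have hX : ¬ (X : ℤ[X]) ∣ y.reverse := by
    rw [X_dvd_iff, coeff_zero_reverse]
    exact hy.2.ne'
  obtain ⟨d, rfl⟩ : (X : ℤ[X]) ^ n ∣ d' :=
    Prime.pow_dvd_of_dvd_mul_right prime_X n hX (Dvd.intro _ hmul.symm)
  refine ⟨d, (isMutation_iff he).mpr ?_⟩
  have hXn : (X : ℤ[X]) ^ n ≠ 0 := pow_ne_zero _ X_ne_zero
  apply mul_left_cancel₀ hXn
  rw [← hmul]; ring

/-- The result of a mutation is unique. -/
lemma mutation_unique {s : ℤ} {x y c d d' : ℤ[X]} (hy : Pos y) (h : IsMutation s x y c d)
    (h' : IsMutation s x y c d') : d = d' := by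
  have h1 : toLaurent (d * y.reverse) = toLaurent (d' * y.reverse) := by
    rw [map_mul, map_mul]
    exact (show _ = _ from h).trans (show _ = _ from h').symm
  have h2 := Polynomial.toLaurent_injective h1
  exact mul_right_cancel₀ hy.reverse_ne_zero h2

/-! ### Good triples -/

/-- The invariants of the vertices below `t₀`. -/
structure Good (ε : ℤ) (t : Triple) : Prop where
  sgn : ε = 1 ∨ ε = -1
  pa : Pos t.a
  pb : Pos t.b
  pc : Pos t.c
  deg : t.c.natDegree = t.a.natDegree + t.b.natDegree + 1
  degb : 1 ≤ t.b.natDegree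
  exact : Exact ε t.a t.b t.c

lemma neg_sgn {ε : ℤ} (h : ε = 1 ∨ ε = -1) : -ε = 1 ∨ -ε = -1 := by
  rcases h with rfl | rfl <;> simp

lemma Good.left {ε : ℤ} {t : Triple} {d : ℤ[X]} (h : Good ε t)
    (hd : IsMutation ε t.a t.b t.c d) : Good ε ⟨t.a, t.c, d⟩ := by
  have hdeg := h.deg
  have hb := h.degb
  obtain ⟨p, dg, -⟩ := mutation_facts h.sgn h.pa h.pb h.pc (by omega) hd
  exact ⟨h.sgn, h.pa, h.pc, p, by simp only; omega, by simp only; omega, h.exact.step hd⟩

lemma Good.right {ε : ℤ} {t : Triple} {d : ℤ[X]} (h : Good ε t)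
    (hd : IsMutation (-ε) t.b t.a t.c d) : Good (-ε) ⟨t.b, t.c, d⟩ := by
  have hdeg := h.deg
  have hb := h.degb
  obtain ⟨p, dg, -⟩ := mutation_facts (neg_sgn h.sgn) h.pb h.pa h.pc (by omega) hd
  exact ⟨neg_sgn h.sgn, h.pb, h.pc, p, by simp only; omega, by simp only; omega,
    h.exact.swap.step hd⟩

/-- `t₀`. -/
noncomputable def t0 : Triple := ⟨1, 1 + X, 1 + 2 * X + 2 * X ^ 2⟩

lemma natDegree_b0 : (1 + X : ℤ[X]).natDegree = 1 := by compute_degree!

lemma natDegree_c0 : (1 + 2 * X + 2 * X ^ 2 : ℤ[X]).natDegree = 2 := by compute_degree!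

lemma coeff_b0 : (1 + X : ℤ[X]).coeff 0 = 1 := by simp

lemma coeff_c0 : (1 + 2 * X + 2 * X ^ 2 : ℤ[X]).coeff 0 = 1 := by simp

lemma lead_b0 : (1 + X : ℤ[X]).leadingCoeff = 1 := by
  rw [leadingCoeff, natDegree_b0]
  simp [coeff_one]

lemma lead_c0 : (1 + 2 * X + 2 * X ^ 2 : ℤ[X]).leadingCoeff = 2 := by
  rw [leadingCoeff, natDegree_c0]
  have h : (1 + 2 * X + 2 * X ^ 2 : ℤ[X])
      = Polynomial.C 1 + Polynomial.C 2 * X + Polynomial.C 2 * X ^ 2 := by simp
  rw [h]
  simp only [coeff_add, Polynomial.coeff_C_mul, coeff_X_pow, coeff_X, Polynomial.coeff_C]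
  norm_num

lemma pos_one : Pos (1 : ℤ[X]) := by simp [Pos]

lemma pos_b0 : Pos (1 + X : ℤ[X]) := ⟨by rw [coeff_b0]; norm_num, by rw [lead_b0]; norm_num⟩

lemma pos_c0 : Pos (1 + 2 * X + 2 * X ^ 2 : ℤ[X]) :=
  ⟨by rw [coeff_c0]; norm_num, by rw [lead_c0]; norm_num⟩

lemma symm_one : symm 1 = 1 := by simp [symm]

lemma toL_b0 : toLaurent (1 + X : ℤ[X]) = 1 + T 1 := by simp

lemma toL_c0 : toLaurent (1 + 2 * X + 2 * X ^ 2 : ℤ[X]) = 1 + 2 * T 1 + 2 * (T 1 * T 1) := by
  rw [map_add, map_add, map_mul, map_mul, map_pow, map_one, map_ofNat, Polynomial.toLaurent_X]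
  ring

lemma bar_b0 : bar (1 + X : ℤ[X]) = 1 + T (-1) := by
  rw [bar, toL_b0]; simp

lemma bar_c0 : bar (1 + 2 * X + 2 * X ^ 2 : ℤ[X]) = 1 + 2 * T (-1) + 2 * (T (-1) * T (-1)) := by
  rw [bar, toL_c0]
  simp only [map_add, map_mul, map_one, LaurentPolynomial.invert_T, map_ofNat]

lemma exact_t0 : Exact 1 t0.a t0.b t0.c := by
  have hT : (T 1 * T (-1) : ℤ[T;T⁻¹]) = 1 := T_mul_T_neg 1
  have hB : symm (1 + X : ℤ[X]) = (1 + T 1) * (1 + T (-1)) := by
    rw [symm_eq, toL_b0, bar_b0]
  have hC : symm (1 + 2 * X + 2 * X ^ 2 : ℤ[X])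
      = (1 + 2 * T 1 + 2 * (T 1 * T 1)) * (1 + 2 * T (-1) + 2 * (T (-1) * T (-1))) := by
    rw [symm_eq, toL_c0, bar_c0]
  refine ⟨?_, ?_, ?_, ?_, ?_, ?_⟩
  · simp only [t0, symm_one]; exact isCoprime_one_left
  · simp only [t0, symm_one]; exact isCoprime_one_left
  · simp only [t0]
    rw [hB, hC]
    have h1 : IsCoprime (1 + T 1 : ℤ[T;T⁻¹]) (1 + 2 * T 1 + 2 * (T 1 * T 1)) :=
      ⟨-(2 * T 1), 1, by ring⟩
    have h2 : IsCoprime (1 + T (-1) : ℤ[T;T⁻¹]) (1 + 2 * T (-1) + 2 * (T (-1) * T (-1))) :=
      ⟨-(2 * T (-1)), 1, by ring⟩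
    have h3 : IsCoprime (1 + T 1 : ℤ[T;T⁻¹]) (1 + 2 * T (-1) + 2 * (T (-1) * T (-1))) := by
      refine ⟨-(2 * T (-1) * T (-1)), 1, ?_⟩
      linear_combination (-2 * T (-1)) * hT
    have h4 : IsCoprime (1 + T (-1) : ℤ[T;T⁻¹]) (1 + 2 * T 1 + 2 * (T 1 * T 1)) := by
      refine ⟨-(2 * T 1 * T 1), 1, ?_⟩
      linear_combination (-2 * T 1) * hT
    exact (h1.mul_right h3).mul_left (h4.mul_right h2)
  · simp only [t0]
    have : bar (1 : ℤ[X]) = 1 := by simp [bar]
    rw [this]
    exact one_dvd _
  · simp only [t0]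
    rw [symm_one, hC, bar_b0]
    -- q + C = (1 + q⁻¹) * (...)
    refine ⟨2 * (T 1 * T 1) + 5 * T 1 + 4 + 2 * T (-1), ?_⟩
    linear_combination (2 * T 1 + 3 + 4 * T (-1) + 4 * T 1 * T (-1)) * hT
  · simp only [t0]
    rw [symm_one, hB, bar_c0]
    refine ⟨T 1, ?_⟩
    linear_combination (-1 - 2 * T (-1)) * hT

lemma good_t0 : Good 1 t0 :=
  ⟨Or.inl rfl, pos_one, pos_b0, pos_c0, by simp [t0, natDegree_b0, natDegree_c0],
    by simp [t0, natDegree_b0], exact_t0⟩

/-! ### Any mirror Markov tree has good vertices -/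

lemma sign_nil : sign [] = 1 := by simp [sign]

lemma sign_left (w : List Bool) : sign (w ++ [true]) = sign w := by
  simp [sign, List.count_append]

lemma sign_right (w : List Bool) : sign (w ++ [false]) = -sign w := by
  simp [sign, List.count_append, pow_succ]

lemma good_node {τ : Vertex → Triple} (h : IsMirrorMarkovTree τ) (w : List Bool) :
    Good (sign w) (τ (.node w)) := by
  induction w using List.reverseRecOn with
  | nil => rw [sign_nil, h.root]; exact good_t0
  | append_singleton w l ih =>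
    cases l with
    | true =>
      have h1 := ih.left (h.left_c w)
      have h2 : τ (.node (w ++ [true]))
          = ⟨(τ (.node w)).a, (τ (.node w)).c, (τ (.node (w ++ [true]))).c⟩ :=
        Triple.ext (h.left_a w) (h.left_b w) rfl
      rw [sign_left, h2]
      exact h1
    | false =>
      have h1 := ih.right (h.right_c w)
      have h2 : τ (.node (w ++ [false]))
          = ⟨(τ (.node w)).b, (τ (.node w)).c, (τ (.node (w ++ [false]))).c⟩ :=
        Triple.ext (h.right_a w) (h.right_b w) rfl
      rw [sign_right, h2]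
      exact h1

/-! ### Existence and uniqueness of the tree -/

open Classical in
/-- The polynomial obtained by a mutation. -/
noncomputable def mutate (s : ℤ) (x y c : ℤ[X]) : ℤ[X] :=
  if h : ∃ d, IsMutation s x y c d then h.choose else 0

lemma mutate_spec {s : ℤ} {x y c : ℤ[X]} (h : ∃ d, IsMutation s x y c d) :
    IsMutation s x y c (mutate s x y c) := by
  rw [mutate, dif_pos h]; exact h.choose_spec

/-- The tree, on reversed words. -/
noncomputable def build : List Bool → Triple
  | [] => t0
  | true :: w => ⟨(build w).a, (build w).c,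
      mutate (sign w.reverse) (build w).a (build w).b (build w).c⟩
  | false :: w => ⟨(build w).b, (build w).c,
      mutate (-sign w.reverse) (build w).b (build w).a (build w).c⟩

lemma Good.exists_left {ε : ℤ} {t : Triple} (h : Good ε t) : ∃ d, IsMutation ε t.a t.b t.c d := by
  have hdeg := h.deg
  exact h.exact.exists_mutation h.sgn h.pb (by omega)

lemma Good.exists_right {ε : ℤ} {t : Triple} (h : Good ε t) :
    ∃ d, IsMutation (-ε) t.b t.a t.c d := by
  have hdeg := h.deg
  exact h.exact.swap.exists_mutation (neg_sgn h.sgn) h.pa (by omega)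

lemma good_build (w : List Bool) : Good (sign w.reverse) (build w) := by
  induction w with
  | nil => simpa [sign_nil, build] using good_t0
  | cons l w ih =>
    cases l with
    | true =>
      rw [List.reverse_cons, sign_left]
      exact ih.left (mutate_spec ih.exists_left)
    | false =>
      rw [List.reverse_cons, sign_right]
      exact ih.right (mutate_spec ih.exists_right)

/-- The mirror Markov tree. -/
noncomputable def tree : Vertex → Triple
  | .top => ⟨1, 1, 1⟩
  | .second => ⟨1, 1, 1 + X⟩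
  | .node w => build w.reverse

lemma isMirrorMarkovTree_tree : IsMirrorMarkovTree tree where
  top := rfl
  second := rfl
  root := rfl
  left_a w := by simp [tree, build]
  left_b w := by simp [tree, build]
  left_c w := by
    have h := good_build w.reverse
    have h1 := mutate_spec h.exists_left
    rw [List.reverse_reverse] at h1
    simpa [tree, build] using h1
  right_a w := by simp [tree, build]
  right_b w := by simp [tree, build]
  right_c w := by
    have h := good_build w.reverse
    have h1 := mutate_spec h.exists_right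
    rw [List.reverse_reverse] at h1
    simpa [tree, build] using h1

lemma tree_unique {τ τ' : Vertex → Triple} (h : IsMirrorMarkovTree τ)
    (h' : IsMirrorMarkovTree τ') : τ = τ' := by
  have key : ∀ w, τ (.node w) = τ' (.node w) := by
    intro w
    induction w using List.reverseRecOn with
    | nil => rw [h.root, h'.root]
    | append_singleton w l ih =>
      have g := good_node h w
      cases l with
      | true =>
        refine Triple.ext ?_ ?_ ?_
        · rw [h.left_a, h'.left_a, ih]
        · rw [h.left_b, h'.left_b, ih]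
        · have h1 := h.left_c w
          have h2 := h'.left_c w
          rw [← ih] at h2
          exact mutation_unique g.pb h1 h2
      | false =>
        refine Triple.ext ?_ ?_ ?_
        · rw [h.right_a, h'.right_a, ih]
        · rw [h.right_b, h'.right_b, ih]
        · have h1 := h.right_c w
          have h2 := h'.right_c w
          rw [← ih] at h2
          exact mutation_unique g.pa h1 h2
  funext v
  cases v with
  | top => rw [h.top, h'.top]
  | second => rw [h.second, h'.second]
  | node w => exact key w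

/-! ### Coefficientwise positivity and domination -/

/-- All coefficients up to the degree are positive. -/
def AllPos (p : ℤ[X]) : Prop := ∀ j ≤ p.natDegree, 0 < p.coeff j

/-- Coefficientwise order. -/
def Le (p r : ℤ[X]) : Prop := ∀ j, p.coeff j ≤ r.coeff j

lemma AllPos.pos {p : ℤ[X]} (h : AllPos p) : Pos p := ⟨h 0 (Nat.zero_le _), h _ le_rfl⟩

lemma AllPos.nonneg {p : ℤ[X]} (h : AllPos p) (j : ℕ) : 0 ≤ p.coeff j := by
  by_cases hj : j ≤ p.natDegree
  · exact (h j hj).le
  · rw [coeff_eq_zero_of_natDegree_lt (by omega)]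

lemma one_term {p r : ℤ[X]} (hp : AllPos p) (hr : AllPos r) {i j : ℕ} (hi : i ≤ j) :
    p.coeff i * r.coeff (j - i) ≤ (p * r).coeff j := by
  rw [coeff_mul]
  have hmem : (i, j - i) ∈ Finset.HasAntidiagonal.antidiagonal j := by
    rw [Finset.HasAntidiagonal.mem_antidiagonal]; simp only; omega
  exact Finset.single_le_sum (f := fun x : ℕ × ℕ => p.coeff x.1 * r.coeff x.2)
    (fun x _ => mul_nonneg (hp.nonneg _) (hr.nonneg _)) hmem

lemma two_terms {p r : ℤ[X]} (hp : AllPos p) (hr : AllPos r) {i i' j : ℕ} (hi : i ≤ j)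
    (hi' : i' ≤ j) (hne : i ≠ i') :
    p.coeff i * r.coeff (j - i) + p.coeff i' * r.coeff (j - i') ≤ (p * r).coeff j := by
  rw [coeff_mul]
  have hsub : ({(i, j - i), (i', j - i')} : Finset (ℕ × ℕ)) ⊆ Finset.HasAntidiagonal.antidiagonal j := by
    intro x hx
    rw [Finset.mem_insert, Finset.mem_singleton] at hx
    rw [Finset.HasAntidiagonal.mem_antidiagonal]
    rcases hx with rfl | rfl <;> simp only <;> omega
  have h := Finset.sum_le_sum_of_subset_of_nonneg
    (f := fun x : ℕ × ℕ => p.coeff x.1 * r.coeff x.2) hsub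
    (fun x _ _ => mul_nonneg (hp.nonneg _) (hr.nonneg _))
  rw [Finset.sum_pair (by simp [hne])] at h
  exact h

/-- The growth lemma. -/
lemma growth {w c b : ℤ[X]} {k : ℕ} (hw : AllPos w) (hwk : w.natDegree = k) (hk : 1 ≤ k)
    (hc : AllPos c) (hb : Le b c) (hbd : b.natDegree < c.natDegree) :
    AllPos (w * c - X ^ k * b) ∧ (w * c - X ^ k * b).natDegree = k + c.natDegree ∧
      Le c (w * c - X ^ k * b) := by
  have hcoeff : ∀ j, (w * c - X ^ k * b).coeff j
      = (w * c).coeff j - (if k ≤ j then b.coeff (j - k) else 0) := by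
    intro j
    rw [coeff_sub, coeff_X_pow_mul']
  have hle : Le c (w * c - X ^ k * b) := by
    intro j
    rw [hcoeff]
    have hw0 : 1 ≤ w.coeff 0 := hw 0 (Nat.zero_le _)
    have hwk1 : 1 ≤ w.coeff k := hw k hwk.ge
    have hcj := hc.nonneg j
    split_ifs with hkj
    · have h := two_terms hw hc (Nat.zero_le j) hkj (by omega : (0 : ℕ) ≠ k)
      rw [Nat.sub_zero] at h
      have hck := hc.nonneg (j - k)
      have hbk := hb (j - k)
      nlinarith
    · have h := one_term hw hc (Nat.zero_le j)
      rw [Nat.sub_zero] at h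
      nlinarith
  have hpos : ∀ j ≤ k + c.natDegree, 0 < (w * c - X ^ k * b).coeff j := by
    intro j hj
    by_cases h1 : j ≤ c.natDegree
    · exact lt_of_lt_of_le (hc j h1) (hle j)
    · rw [hcoeff]
      by_cases h2 : j = k + c.natDegree
      · subst h2
        rw [if_pos (by omega), show k + c.natDegree - k = c.natDegree by omega,
          coeff_eq_zero_of_natDegree_lt hbd, sub_zero]
        have h := one_term hw hc (show k ≤ k + c.natDegree by omega)
        rw [show k + c.natDegree - k = c.natDegree by omega] at h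
        have h3 := hw k hwk.ge
        have h4 := hc _ le_rfl
        have h5 := mul_pos h3 h4
        omega
      · have hi0 : j - c.natDegree ≤ j := by omega
        have hne : j - c.natDegree ≠ k := by omega
        have hw1 := hw (j - c.natDegree) (by omega)
        have hcd := hc _ le_rfl
        have hsub : j - (j - c.natDegree) = c.natDegree := by omega
        split_ifs with hkj
        · have h := two_terms hw hc hi0 hkj hne
          rw [hsub] at h
          have hck := hc.nonneg (j - k)
          have hbk := hb (j - k)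
          have hwk1 : 1 ≤ w.coeff k := hw k hwk.ge
          have h5 := mul_pos hw1 hcd
          nlinarith
        · have h := one_term hw hc hi0
          rw [hsub] at h
          have h5 := mul_pos hw1 hcd
          omega
  have hdeg : (w * c - X ^ k * b).natDegree = k + c.natDegree := by
    apply le_antisymm
    · refine (natDegree_sub_le _ _).trans (max_le ?_ ?_)
      · refine natDegree_mul_le.trans ?_
        omega
      · refine natDegree_mul_le.trans ?_
        rw [natDegree_X_pow]
        omega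
    · exact le_natDegree_of_ne_zero (hpos _ le_rfl).ne'
  exact ⟨fun j hj => hpos j (hdeg ▸ hj), hdeg, hle⟩

/-- The second growth lemma. -/
lemma growth' {u v b : ℤ[X]} {k : ℕ} (hk : 1 ≤ k) (hu : AllPos u) (hv : AllPos v)
    (hb : ∀ i, b.coeff i ≤ v.coeff (i + k)) : Le u (u * v - X ^ k * b) := by
  intro j
  rw [coeff_sub, coeff_X_pow_mul']
  have hu0 : 1 ≤ u.coeff 0 := hu 0 (Nat.zero_le _)
  have hv0 : 1 ≤ v.coeff 0 := hv 0 (Nat.zero_le _)
  have huj := hu.nonneg j
  have hvj := hv.nonneg j
  by_cases hj : j = 0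
  · subst hj
    rw [if_neg (by omega), mul_coeff_zero]
    nlinarith
  · have h := two_terms hu hv (Nat.zero_le j) (le_refl j) (by omega : (0 : ℕ) ≠ j)
    rw [Nat.sub_zero, Nat.sub_self] at h
    split_ifs with hkj
    · have hbk := hb (j - k)
      rw [Nat.sub_add_cancel hkj] at hbk
      nlinarith
    · nlinarith

lemma AllPos.reverse {p : ℤ[X]} (h : AllPos p) : AllPos p.reverse := by
  intro j hj
  rw [h.pos.natDegree_reverse] at hj
  rw [coeff_reverse, revAt_le hj]
  exact h _ (by omega)

lemma Pos.reverse_reverse {p : ℤ[X]} (h : Pos p) : p.reverse.reverse = p := by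
  apply Polynomial.toLaurent_injective
  rw [toLaurent_reverse, toLaurent_reverse, h.natDegree_reverse, map_mul,
    LaurentPolynomial.involutive_invert, LaurentPolynomial.invert_T, mul_assoc, T_neg_mul_T,
    mul_one]

lemma dom_reverse {u v : ℤ[X]} {k : ℕ} (hv : AllPos v)
    (hdeg : v.natDegree = k + u.natDegree) (h : Le u.reverse v) (i : ℕ) :
    u.coeff i ≤ v.reverse.coeff (i + k) := by
  by_cases hi : i ≤ u.natDegree
  · have h1 := h (u.natDegree - i)
    rw [coeff_reverse, revAt_le (by omega), show u.natDegree - (u.natDegree - i) = i by omega] at h1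
    rw [coeff_reverse, revAt_le (by omega),
      show v.natDegree - (i + k) = u.natDegree - i by omega]
    exact h1
  · rw [coeff_eq_zero_of_natDegree_lt (by omega)]
    exact hv.reverse.nonneg _

/-! ### The companion polynomials -/

/-- A vertex with its companions. -/
structure St (s : ℤ) (x y c w1 w2 w3 : ℤ[X]) : Prop where
  ax : AllPos x
  ay : AllPos y
  ac : AllPos c
  a1 : AllPos w1
  a2 : AllPos w2
  a3 : AllPos w3
  dc : c.natDegree = x.natDegree + y.natDegree + 1
  d1 : w1.natDegree = x.natDegree + 1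
  d2 : w2.natDegree = y.natDegree + 1
  d3 : w3.natDegree = c.natDegree + 1
  ex : Le x c
  ey : Le y c
  e1 : Le w2.reverse w3
  e2 : Le w1.reverse w3.reverse
  z1 : toLaurent w1 * toLaurent c * bar y
    = T ((x.natDegree : ℤ) + 1) * (T s * symm x + symm y + symm c)
  z2 : toLaurent w2 * toLaurent c * bar x
    = T ((y.natDegree : ℤ) + 1) * (symm x + T (-s) * symm y + symm c)
  z3 : toLaurent w3 * toLaurent x * bar y
    = T ((x.natDegree : ℤ) + 1) * (T s * (symm x + symm y) + symm c)

lemma invert_toL (x : ℤ[X]) : LaurentPolynomial.invert (toLaurent x) = bar x := rfl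

lemma St.swap {s : ℤ} {x y c w1 w2 w3 : ℤ[X]} (h : St s x y c w1 w2 w3) :
    St (-s) y x c w2 w1 w3.reverse where
  ax := h.ay
  ay := h.ax
  ac := h.ac
  a1 := h.a2
  a2 := h.a1
  a3 := h.a3.reverse
  dc := by have := h.dc; omega
  d1 := h.d2
  d2 := h.d1
  d3 := by rw [h.a3.pos.natDegree_reverse, h.d3]
  ex := h.ey
  ey := h.ex
  e1 := h.e2
  e2 := by rw [h.a3.pos.reverse_reverse]; exact h.e1
  z1 := by rw [h.z2]; ring
  z2 := by rw [neg_neg, h.z1]; ring
  z3 := by
    have h3 := congrArg LaurentPolynomial.invert h.z3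
    simp only [map_mul, map_add, LaurentPolynomial.invert_T, invert_symm, invert_bar,
      invert_toL] at h3
    rw [toLaurent_reverse, invert_toL, h.d3, h.dc]
    have e : (((x.natDegree + y.natDegree + 1 + 1 : ℕ) : ℤ))
        = ((x.natDegree : ℤ) + 1) + ((y.natDegree : ℤ) + 1) := by push_cast; ring
    rw [e, T_add]
    calc bar w3 * (T ((x.natDegree : ℤ) + 1) * T ((y.natDegree : ℤ) + 1)) * toLaurent y * bar x
        = T ((x.natDegree : ℤ) + 1) * T ((y.natDegree : ℤ) + 1)
          * (bar w3 * bar x * toLaurent y) := by ring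
      _ = (T ((x.natDegree : ℤ) + 1) * T (-((x.natDegree : ℤ) + 1)))
          * (T ((y.natDegree : ℤ) + 1) * (T (-s) * (symm x + symm y) + symm c)) := by
        rw [h3]; ring
      _ = _ := by rw [T_mul_T_neg]; ring

lemma bar_ne_zero {x : ℤ[X]} (h : x ≠ 0) : bar x ≠ 0 := by
  intro h0
  apply h
  apply Polynomial.toLaurent_injective
  rw [map_zero, ← invert_bar, h0, map_zero]

lemma toL_ne_zero {x : ℤ[X]} (h : x ≠ 0) : toLaurent x ≠ 0 := by
  intro h0
  apply h
  apply Polynomial.toLaurent_injective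
  rw [h0, map_zero]

/-- The linear recurrence for a mutation. -/
lemma St.recurrence {s : ℤ} {x y c d w1 w2 w3 : ℤ[X]} (h : St s x y c w1 w2 w3)
    (hd : IsMutation s x y c d) : d = w1 * c - X ^ (x.natDegree + 1) * y := by
  rw [isMutation_iff_bar] at hd
  have e : (c.natDegree : ℤ) - y.natDegree = (x.natDegree : ℤ) + 1 := by
    have := h.dc; omega
  rw [e] at hd
  apply Polynomial.toLaurent_injective
  apply mul_right_cancel₀ (bar_ne_zero h.ay.pos.ne_zero)
  rw [hd, map_sub, map_mul, map_mul, Polynomial.toLaurent_X_pow, sub_mul, h.z1]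
  push_cast
  rw [symm_eq y]
  ring

lemma rev_step {w1 w2 w3 : ℤ[X]} {k : ℕ} (h1 : w1.natDegree = k)
    (h3 : w3.natDegree = k + w2.natDegree)
    (hp : (w1.reverse * w3 - X ^ k * w2.reverse).natDegree = k + w3.natDegree) :
    (w1.reverse * w3 - X ^ k * w2.reverse).reverse = w1 * w3.reverse - X ^ k * w2 := by
  apply Polynomial.toLaurent_injective
  rw [toLaurent_reverse, hp]
  simp only [map_sub, map_mul, Polynomial.toLaurent_X_pow, toLaurent_reverse, invert_toL,
    invert_bar, LaurentPolynomial.invert_T, h1, h3]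
  have e1 : ((k + (k + w2.natDegree) : ℕ) : ℤ) = (k : ℤ) + ((k : ℤ) + w2.natDegree) := by
    push_cast; ring
  have e2 : ((k + w2.natDegree : ℕ) : ℤ) = (k : ℤ) + w2.natDegree := by push_cast; ring
  rw [e1, e2, T_add, T_add]
  have hk := T_mul_T_neg (k : ℤ)
  have hw := T_mul_T_neg (w2.natDegree : ℤ)
  linear_combination (toLaurent w1 * bar w3 * T (k : ℤ) * T (w2.natDegree : ℤ)
    - toLaurent w2 * T (k : ℤ) * (T (w2.natDegree : ℤ) * T (-(w2.natDegree : ℤ)))) * hk
    - toLaurent w2 * T (k : ℤ) * hw

/-- The companions after a mutation. -/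
lemma St.step {s : ℤ} {x y c d w1 w2 w3 : ℤ[X]} (h : St s x y c w1 w2 w3)
    (hd : IsMutation s x y c d) :
    St s x c d w1.reverse w3.reverse
      (w1.reverse * w3 - X ^ (x.natDegree + 1) * w2.reverse) := by
  have hrec := h.recurrence hd
  have hdc := h.dc
  have hd1 := h.d1
  have hd2 := h.d2
  have hd3 := h.d3
  obtain ⟨g1, g2, g3⟩ := growth h.a1 h.d1 (by omega) h.ac h.ey (by omega)
  rw [← hrec] at g1 g2 g3
  have hr1 := h.a1.pos.natDegree_reverse
  have hr2 := h.a2.pos.natDegree_reverse
  have hr3 := h.a3.pos.natDegree_reverse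
  obtain ⟨k1, k2, k3⟩ := growth (k := x.natDegree + 1) h.a1.reverse (by omega) (by omega) h.a3 h.e1
    (by omega)
  have hrev := rev_step (k := x.natDegree + 1) (w2 := w2) (w3 := w3) h.d1 (by omega) k2
  -- Laurent identities
  have hM : toLaurent d * bar y = T ((x.natDegree : ℤ) + 1) * (T s * symm x + symm c) := by
    rw [isMutation_iff_bar] at hd
    have e : (c.natDegree : ℤ) - y.natDegree = (x.natDegree : ℤ) + 1 := by omega
    rw [e] at hd
    exact hd
  have hM' : bar d * toLaurent y = T (-((x.natDegree : ℤ) + 1)) * (T (-s) * symm x + symm c) := by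
    have := congrArg LaurentPolynomial.invert hM
    simp only [map_mul, map_add, LaurentPolynomial.invert_T, invert_symm, invert_bar,
      invert_toL] at this
    exact this
  have hz1 : bar w1 * bar c * toLaurent y
      = T (-((x.natDegree : ℤ) + 1)) * (T (-s) * symm x + symm y + symm c) := by
    have := congrArg LaurentPolynomial.invert h.z1
    simp only [map_mul, map_add, LaurentPolynomial.invert_T, invert_symm, invert_bar,
      invert_toL] at this
    exact this
  have hz2 : bar w2 * bar c * toLaurent x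
      = T (-((y.natDegree : ℤ) + 1)) * (symm x + T s * symm y + symm c) := by
    have := congrArg LaurentPolynomial.invert h.z2
    simp only [map_mul, map_add, LaurentPolynomial.invert_T, invert_symm, invert_bar,
      invert_toL, neg_neg] at this
    exact this
  have hz3 : bar w3 * bar x * toLaurent y
      = T (-((x.natDegree : ℤ) + 1)) * (T (-s) * (symm x + symm y) + symm c) := by
    have := congrArg LaurentPolynomial.invert h.z3
    simp only [map_mul, map_add, LaurentPolynomial.invert_T, invert_symm, invert_bar,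
      invert_toL] at this
    exact this
  have hz3' := h.z3
  have hst := T_mul_T_neg s
  have hk := T_mul_T_neg ((x.natDegree : ℤ) + 1)
  have hl := T_mul_T_neg ((y.natDegree : ℤ) + 1)
  have hy0 : toLaurent y * bar y ≠ 0 :=
    mul_ne_zero (toL_ne_zero h.ay.pos.ne_zero) (bar_ne_zero h.ay.pos.ne_zero)
  have hyB : symm y = toLaurent y * bar y := rfl
  have hdD : symm d = toLaurent d * bar d := rfl
  have ew1 : toLaurent w1.reverse = bar w1 * T ((x.natDegree : ℤ) + 1) := by
    rw [toLaurent_reverse, invert_toL, hd1]; push_cast; ring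
  have ew2 : toLaurent w2.reverse = bar w2 * T ((y.natDegree : ℤ) + 1) := by
    rw [toLaurent_reverse, invert_toL, hd2]; push_cast; ring
  have ew3 : toLaurent w3.reverse
      = bar w3 * (T ((x.natDegree : ℤ) + 1) * T ((y.natDegree : ℤ) + 1)) := by
    rw [toLaurent_reverse, invert_toL, hd3, hdc, ← T_add]
    congr 2
    push_cast; ring
  have eX : toLaurent (X ^ (x.natDegree + 1) : ℤ[X]) = T ((x.natDegree : ℤ) + 1) := by
    rw [Polynomial.toLaurent_X_pow]; push_cast; ring
  refine ⟨h.ax, h.ac, g1, h.a1.reverse, h.a3.reverse, k1, by omega, by omega, by omega,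
    by omega, fun j => (h.ex j).trans (g3 j), g3, ?_, ?_, ?_, ?_, ?_⟩
  · rw [h.a3.pos.reverse_reverse]; exact k3
  · rw [h.a1.pos.reverse_reverse, hrev]
    exact growth' (by omega) h.a1 h.a3.reverse
      (dom_reverse h.a3 (by omega) h.e1)
  · -- z1
    rw [ew1, hdD]
    apply mul_right_cancel₀ hy0
    generalize (T ((x.natDegree : ℤ) + 1) : ℤ[T;T⁻¹]) = κ at *
    generalize (T (-((x.natDegree : ℤ) + 1)) : ℤ[T;T⁻¹]) = κ' at *
    generalize symm x = A at *
    generalize symm c = C at *
    generalize symm y = B at *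
    generalize toLaurent d = D at *
    generalize bar d = D' at *
    generalize toLaurent y = Y at *
    generalize bar y = Y' at *
    generalize bar w1 = W at *
    generalize bar c = c' at *
    generalize (T s : ℤ[T;T⁻¹]) = t at *
    generalize (T (-s) : ℤ[T;T⁻¹]) = t' at *
    linear_combination (κ * D * Y') * hz1 + (κ * κ' * (t' * A + B + C)) * hM
      - (κ * D' * Y) * hM - (κ * κ * (t * A + C)) * hM' + (κ * (t * A + C) * B) * hk
      + κ * (t * A + C) * hyB
  · rw [ew3, hdD]
    have e : (c.natDegree : ℤ) + 1 = ((x.natDegree : ℤ) + 1) + ((y.natDegree : ℤ) + 1) := by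
      rw [hdc]; push_cast; ring
    have eT : (T ((c.natDegree : ℤ) + 1) : ℤ[T;T⁻¹])
        = (T ((x.natDegree : ℤ) + 1) : ℤ[T;T⁻¹]) * T ((y.natDegree : ℤ) + 1) := by
      rw [e]; exact T_add _ _
    rw [eT]
    apply mul_right_cancel₀ hy0
    generalize (T ((x.natDegree : ℤ) + 1) : ℤ[T;T⁻¹]) = κ at *
    generalize (T (-((x.natDegree : ℤ) + 1)) : ℤ[T;T⁻¹]) = κ' at *
    generalize (T ((y.natDegree : ℤ) + 1) : ℤ[T;T⁻¹]) = l at *
    generalize symm x = A at *
    generalize symm c = C at *
    generalize symm y = B at *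
    generalize toLaurent d = D at *
    generalize bar d = D' at *
    generalize toLaurent y = Y at *
    generalize bar y = Y' at *
    generalize bar w3 = W at *
    generalize bar x = x' at *
    generalize (T s : ℤ[T;T⁻¹]) = t at *
    generalize (T (-s) : ℤ[T;T⁻¹]) = t' at *
    linear_combination (κ * l * D * Y') * hz3 + (κ * l * κ' * (t' * (A + B) + C)) * hM
      - (κ * l * D' * Y) * hM - (κ * l * κ * (t * A + C)) * hM'
      + (κ * l * (A * B + t' * B * C)) * hk + (κ * l * κ * κ' * A * B) * hst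
      + (κ * l * (A + t' * C)) * hyB
  · rw [map_sub, map_mul, map_mul, eX, ew1, ew2, hdD]
    apply mul_right_cancel₀ hy0
    generalize (T ((x.natDegree : ℤ) + 1) : ℤ[T;T⁻¹]) = κ at *
    generalize (T (-((x.natDegree : ℤ) + 1)) : ℤ[T;T⁻¹]) = κ' at *
    generalize (T ((y.natDegree : ℤ) + 1) : ℤ[T;T⁻¹]) = l at *
    generalize (T (-((y.natDegree : ℤ) + 1)) : ℤ[T;T⁻¹]) = l' at *
    generalize symm x = A at *
    generalize symm c = C at *
    generalize symm y = B at *
    generalize toLaurent d = D at *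
    generalize bar d = D' at *
    generalize toLaurent y = Y at *
    generalize bar y = Y' at *
    generalize toLaurent x = X1 at *
    generalize bar w1 = W1 at *
    generalize bar w2 = W2 at *
    generalize toLaurent w3 = W3 at *
    generalize bar c = c' at *
    generalize (T s : ℤ[T;T⁻¹]) = t at *
    generalize (T (-s) : ℤ[T;T⁻¹]) = t' at *
    linear_combination (κ * W3 * X1 * Y') * hz1 + (κ * κ' * (t' * A + B + C)) * hz3'
      - (κ * l * Y * Y') * hz2 - (κ * (A + t * B + C) * Y * Y') * hl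
      - (κ * D' * Y) * hM - (κ * κ * (t * A + C)) * hM'
      + (κ * (A + t * B + C + t * A + t * C)) * hyB
      + (κ * B * (A + t * A + t * B + C + t * C)) * hk + (κ * κ * κ' * A * B) * hst

/-! ### The base vertex -/

lemma allPos_of {p : ℤ[X]} {n : ℕ} (hn : p.natDegree = n) (h : ∀ j ≤ n, 0 < p.coeff j) :
    AllPos p := fun j hj => h j (hn ▸ hj)

lemma st_t0 : St 1 1 (1 + X) (1 + 2 * X + 2 * X ^ 2) (2 + X) (3 + 2 * X + X ^ 2)
    (2 + 4 * X + 6 * X ^ 2 + 3 * X ^ 3) := by
  have hT : (T 1 * T (-1) : ℤ[T;T⁻¹]) = 1 := T_mul_T_neg 1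
  have n1 : (2 + X : ℤ[X]).natDegree = 1 := by compute_degree!
  have n2 : (3 + 2 * X + X ^ 2 : ℤ[X]).natDegree = 2 := by compute_degree!
  have n3 : (2 + 4 * X + 6 * X ^ 2 + 3 * X ^ 3 : ℤ[X]).natDegree = 3 := by compute_degree!
  have hb : (1 + X : ℤ[X]) = Polynomial.C 1 + Polynomial.C 1 * X := by simp
  have hc : (1 + 2 * X + 2 * X ^ 2 : ℤ[X])
      = Polynomial.C 1 + Polynomial.C 2 * X + Polynomial.C 2 * X ^ 2 := by simp
  have h1 : (2 + X : ℤ[X]) = Polynomial.C 2 + Polynomial.C 1 * X := by simp
  have h2 : (3 + 2 * X + X ^ 2 : ℤ[X])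
      = Polynomial.C 3 + Polynomial.C 2 * X + Polynomial.C 1 * X ^ 2 := by simp
  have h3 : (2 + 4 * X + 6 * X ^ 2 + 3 * X ^ 3 : ℤ[X])
      = Polynomial.C 2 + Polynomial.C 4 * X + Polynomial.C 6 * X ^ 2 + Polynomial.C 3 * X ^ 3 := by
    simp
  have b1 : AllPos (1 : ℤ[X]) := allPos_of (natDegree_one) (by
    intro j hj
    interval_cases j; simp)
  have bb : AllPos (1 + X : ℤ[X]) := allPos_of natDegree_b0 (by
    intro j hj
    rw [hb]
    simp only [coeff_add, Polynomial.coeff_C_mul, coeff_X_pow, coeff_X, Polynomial.coeff_C]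
    interval_cases j <;> norm_num)
  have bc : AllPos (1 + 2 * X + 2 * X ^ 2 : ℤ[X]) := allPos_of natDegree_c0 (by
    intro j hj
    rw [hc]
    simp only [coeff_add, Polynomial.coeff_C_mul, coeff_X_pow, coeff_X, Polynomial.coeff_C]
    interval_cases j <;> norm_num)
  have bw1 : AllPos (2 + X : ℤ[X]) := allPos_of n1 (by
    intro j hj
    rw [h1]
    simp only [coeff_add, Polynomial.coeff_C_mul, coeff_X_pow, coeff_X, Polynomial.coeff_C]
    interval_cases j <;> norm_num)
  have bw2 : AllPos (3 + 2 * X + X ^ 2 : ℤ[X]) := allPos_of n2 (by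
    intro j hj
    rw [h2]
    simp only [coeff_add, Polynomial.coeff_C_mul, coeff_X_pow, coeff_X, Polynomial.coeff_C]
    interval_cases j <;> norm_num)
  have bw3 : AllPos (2 + 4 * X + 6 * X ^ 2 + 3 * X ^ 3 : ℤ[X]) := allPos_of n3 (by
    intro j hj
    rw [h3]
    simp only [coeff_add, Polynomial.coeff_C_mul, coeff_X_pow, coeff_X, Polynomial.coeff_C]
    interval_cases j <;> norm_num)
  have tl1 : toLaurent (2 + X : ℤ[X]) = 2 + T 1 := by
    rw [map_add, map_ofNat, Polynomial.toLaurent_X]
  have tl2 : toLaurent (3 + 2 * X + X ^ 2 : ℤ[X]) = 3 + 2 * T 1 + T 1 * T 1 := by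
    rw [map_add, map_add, map_mul, map_pow, map_ofNat, map_ofNat, Polynomial.toLaurent_X]; ring
  have tl3 : toLaurent (2 + 4 * X + 6 * X ^ 2 + 3 * X ^ 3 : ℤ[X])
      = 2 + 4 * T 1 + 6 * (T 1 * T 1) + 3 * (T 1 * T 1 * T 1) := by
    rw [map_add, map_add, map_add, map_mul, map_mul, map_mul, map_pow, map_pow, map_ofNat,
      map_ofNat, map_ofNat, map_ofNat, Polynomial.toLaurent_X]; ring
  have bar1 : bar (1 : ℤ[X]) = 1 := by simp [bar]
  refine ⟨b1, bb, bc, bw1, bw2, bw3, ?_, ?_, ?_, ?_, ?_, ?_, ?_, ?_, ?_, ?_, ?_⟩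
  · rw [natDegree_one, natDegree_b0, natDegree_c0]
  · rw [natDegree_one, n1]
  · rw [natDegree_b0, n2]
  · rw [natDegree_c0, n3]
  · intro j
    by_cases hj : j = 0
    · subst hj; simp
    · have := bc.nonneg j
      rw [coeff_one, if_neg hj]; exact this
  · intro j
    by_cases hj : j ≤ 1
    · rw [hb, hc]
      simp only [coeff_add, Polynomial.coeff_C_mul, coeff_X_pow, coeff_X, Polynomial.coeff_C]
      interval_cases j <;> norm_num
    · have := bc.nonneg j
      rw [coeff_eq_zero_of_natDegree_lt (by rw [natDegree_b0]; omega)]; exact this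
  · intro j
    by_cases hj : j ≤ 2
    · rw [coeff_reverse, n2, revAt_le hj, h2, h3]
      simp only [coeff_add, Polynomial.coeff_C_mul, coeff_X_pow, coeff_X, Polynomial.coeff_C]
      interval_cases j <;> norm_num
    · have := bw3.nonneg j
      rw [coeff_eq_zero_of_natDegree_lt (by
        have := reverse_natDegree_le (3 + 2 * X + X ^ 2 : ℤ[X])
        omega)]
      exact this
  · intro j
    by_cases hj : j ≤ 1
    · rw [coeff_reverse, coeff_reverse, n1, n3, revAt_le hj, revAt_le (by omega), h1, h3]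
      simp only [coeff_add, Polynomial.coeff_C_mul, coeff_X_pow, coeff_X, Polynomial.coeff_C]
      interval_cases j <;> norm_num
    · have := bw3.reverse.nonneg j
      rw [coeff_eq_zero_of_natDegree_lt (by
        have := reverse_natDegree_le (2 + X : ℤ[X])
        omega)]
      exact this
  · rw [natDegree_one, symm_one, symm_eq (1 + X), symm_eq (1 + 2 * X + 2 * X ^ 2), tl1, toL_b0,
      toL_c0, bar_b0, bar_c0]
    have e : ((0 : ℕ) : ℤ) + 1 = 1 := by norm_num
    rw [e]
    linear_combination ((-4) * T 1 ^ 2 * T (-1) ^ 1 + (-2) * T 1 ^ 2 * T (-1) ^ 0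
      + (-4) * T 1 ^ 1 * T (-1) ^ 1 + (-3) * T 1 ^ 1 * T (-1) ^ 0 + (-2) * T 1 ^ 0 * T (-1) ^ 1
      + (-2) * T 1 ^ 0 * T (-1) ^ 0) * hT
  · rw [natDegree_b0, symm_one, symm_eq (1 + X), symm_eq (1 + 2 * X + 2 * X ^ 2), tl2, toL_b0,
      toL_c0, bar_b0, bar_c0, bar1]
    have e : ((1 : ℕ) : ℤ) + 1 = 1 + 1 := by norm_num
    rw [e, T_add]
    linear_combination ((-4) * T 1 ^ 3 * T (-1) ^ 1 + (-5) * T 1 ^ 2 * T (-1) ^ 1
      + (-4) * T 1 ^ 3 * T (-1) ^ 0 + (-9) * T 1 ^ 2 * T (-1) ^ 0 + (-3) * T 1 ^ 1 * T (-1) ^ 1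
      + (-8) * T 1 ^ 1 * T (-1) ^ 0 + (-3) * T 1 ^ 0 * T (-1) ^ 0) * hT
  · rw [natDegree_one, symm_one, symm_eq (1 + X), symm_eq (1 + 2 * X + 2 * X ^ 2), tl3, toL_b0,
      toL_c0, bar_b0, bar_c0, map_one toLaurent]
    have e : ((0 : ℕ) : ℤ) + 1 = 1 := by norm_num
    rw [e]
    linear_combination ((-4) * T 1 ^ 2 * T (-1) ^ 1 + (-2) * T 1 ^ 2 * T (-1) ^ 0
      + (-4) * T 1 ^ 1 * T (-1) ^ 1 + (-3) * T 1 ^ 1 * T (-1) ^ 0 + (-2) * T 1 ^ 0 * T (-1) ^ 1
      + (-2) * T 1 ^ 0 * T (-1) ^ 0) * hT

/-! ### All vertices -/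

lemma exists_companions {τ : Vertex → Triple} (h : IsMirrorMarkovTree τ) (w : List Bool) :
    ∃ w1 w2 w3, St (sign w) (τ (.node w)).a (τ (.node w)).b (τ (.node w)).c w1 w2 w3 := by
  induction w using List.reverseRecOn with
  | nil =>
    rw [sign_nil, h.root]
    exact ⟨_, _, _, st_t0⟩
  | append_singleton w l ih =>
    obtain ⟨w1, w2, w3, hs⟩ := ih
    cases l with
    | true =>
      rw [sign_left, h.left_a, h.left_b]
      exact ⟨_, _, _, hs.step (h.left_c w)⟩
    | false =>
      rw [sign_right, h.right_a, h.right_b]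
      exact ⟨_, _, _, hs.swap.step (h.right_c w)⟩

/-- `m` is a mirror deformed Markov number: an entry of a triple of the mirror Markov tree. -/
def IsEntry (τ : Vertex → Triple) (m : ℤ[X]) : Prop :=
  ∃ v, m = (τ v).a ∨ m = (τ v).b ∨ m = (τ v).c

/-- **Positivity of the mirror deformed Markov numbers (MP_99184a_co, Q1).** -/
theorem result : (∃! τ : Vertex → Triple, IsMirrorMarkovTree τ) ∧
    ∀ τ : Vertex → Triple, IsMirrorMarkovTree τ → ∀ m : ℤ[X], IsEntry τ m →
      ∀ j ≤ m.natDegree, 0 < m.coeff j := by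
  refine ⟨⟨tree, isMirrorMarkovTree_tree, fun τ h => tree_unique h isMirrorMarkovTree_tree⟩, ?_⟩
  intro τ h m hm
  obtain ⟨v, hv⟩ := hm
  have b1 : AllPos (1 : ℤ[X]) := st_t0.ax
  have bb : AllPos (1 + X : ℤ[X]) := st_t0.ay
  change AllPos m
  cases v with
  | top =>
    rw [h.top] at hv
    rcases hv with rfl | rfl | rfl <;> exact b1
  | second =>
    rw [h.second] at hv
    rcases hv with rfl | rfl | rfl
    · exact b1
    · exact b1
    · exact bb
  | node w =>
    obtain ⟨w1, w2, w3, hs⟩ := exists_companions h w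
    rcases hv with rfl | rfl | rfl
    · exact hs.ax
    · exact hs.ay
    · exact hs.ac

end Pool.Agent.Results.MP_99184a_co.Positivity
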